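import Mathlib
import Pool.Agent.Work.MP_6d3bed_an.Final

set_option autoImplicit false

open MeasureTheory Pool.Agent.Work.MP_6d3bed_an

namespace Pool.Agent.Results.MP_6d3bed_an.ThreeSolutions

/-- On the annulus `exp (-135) < |x| < exp 135` of the plane (an open, connected, bounded set whose
boundary consists of two circles) there are `c, h ≥ 0` such that, with `μ = 1`, assumption (A) and
hypothesis (H1) hold, `1 < γ₁`, and the problem `(P_1)` has three distinct solutions. -/
theorem result :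
    (IsOpen (ann 135) ∧ IsConnected (ann 135) ∧ Bornology.IsBounded (ann 135) ∧
      frontier (ann 135) =
        Metric.sphere 0 (Real.exp (-135)) ∪ Metric.sphere 0 (Real.exp 135)) ∧
    ∃ c h : Plane → ℝ,
      AssumptionA (ann 135) c h (fun _ => 1) ∧ (∀ x, 0 ≤ h x) ∧
      HypH1 (ann 135) c h (fun _ => 1) ∧ 1 < gamma1 (ann 135) c ∧
      (∀ γ, IsPrincipalEigenvalue (ann 135) c γ → 1 < γ) ∧
      ∃ u₁ u₂ u₃ : Plane → ℝ, IsSolution (ann 135) c h (fun _ => 1) 1 u₁ ∧
        IsSolution (ann 135) c h (fun _ => 1) 1 u₂ ∧ IsSolution (ann 135) c h (fun _ => 1) 1 u₃ ∧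
        ¬ (∀ᵐ x ∂(volume.restrict (ann 135)), u₁ x = u₂ x) ∧
        ¬ (∀ᵐ x ∂(volume.restrict (ann 135)), u₁ x = u₃ x) ∧
        ¬ (∀ᵐ x ∂(volume.restrict (ann 135)), u₂ x = u₃ x) :=
  ⟨⟨isOpen_ann 135, isConnected_ann (by norm_num), isBounded_ann 135, frontier_ann (by norm_num)⟩,
    main⟩

end Pool.Agent.Results.MP_6d3bed_an.ThreeSolutions
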